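import Pool.Agent.Helper10.TRI.Defs
import Pool.Agent.Helper69.CB.TriDefs
import Pool.Agent.Helper49.TRI.D1
import Pool.Agent.Helper29.TRI.D2
import Pool.Agent.Helper11.CB.TriD35
import Pool.Agent.Helper17.CB.TriCrt
import Pool.Agent.Helper32.CB.TriTranslate

/-!
# T-TRI, piece D: the step in one variable from the sieve
-/

set_option autoImplicit false

namespace Pool.Agent.Helper10.TRI

open NumberField Polynomial Pool.Agent.Helper4.CB Pool.Agent.Helper69.CB

variable {K : Type} [Field K] [NumberField K]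

theorem vl_le_one (p : Pl K) (x : 𝓞 K) : vl p (x : K) ≤ 1 := p.valuation_le_one x

theorem vl_lt_one_iff (p : Pl K) (x : 𝓞 K) : vl p (x : K) < 1 ↔ x ∈ p.asIdeal :=
  p.valuation_lt_one_iff_mem x

theorem vl_eq_one_iff (p : Pl K) (x : 𝓞 K) : vl p (x : K) = 1 ↔ x ∉ p.asIdeal := by
  rw [← vl_lt_one_iff, not_lt]
  exact ⟨fun h => h.ge, fun h => le_antisymm (vl_le_one p x) h⟩

theorem vl_natCast (p : Pl K) (n : ℕ) : vl p (n : K) ≤ 1 := by
  have := vl_le_one p (n : 𝓞 K)
  simpa using this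

theorem vl_natCast_lt (p : Pl K) (n : ℕ) : vl p (n : K) < 1 ↔ (n : 𝓞 K) ∈ p.asIdeal := by
  rw [← vl_lt_one_iff]
  simp

theorem vl_natCast_eq (p : Pl K) (n : ℕ) : vl p (n : K) = 1 ↔ (n : 𝓞 K) ∉ p.asIdeal := by
  rw [← vl_eq_one_iff]
  simp

theorem vl_eval_le (p : Pl K) {f : K[X]} (hf : ∀ j, vl p (f.coeff j) ≤ 1) {x : K}
    (hx : vl p x ≤ 1) : vl p (f.eval x) ≤ 1 := by
  rw [eval_eq_sum_range]
  apply Valuation.map_sum_le
  intro i _
  rw [map_mul, map_pow]
  exact mul_le_one' (hf i) (pow_le_one' hx i)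

theorem vl_eq_of_sub_lt (p : Pl K) {x y : K} (hy : vl p y = 1) (h : vl p (x - y) < 1) :
    vl p x = 1 := by
  have e : x = (x - y) + y := by ring
  have h0 : vl p (x - y) < vl p y := by
    rw [hy]
    exact h
  have h1 : vl p ((x - y) + y) = vl p y := Valuation.map_add_eq_of_lt_right _ h0
  rw [e, h1, hy]

theorem lt_nm {J : ℕ} {p : Pl K} (hp : Bad J p) : 2 ^ J < nm p := by
  by_contra h
  rw [not_lt] at h
  have h2 := two_le_nm p
  have h3 : nm p ≡ 1 [MOD 2 ^ J] := hp
  have h4 : 2 ^ J ∣ nm p - 1 := (Nat.modEq_iff_dvd' (by omega)).1 h3.symm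
  have h5 := Nat.le_of_dvd (by omega) h4
  omega

open Classical in
/-- the monic irreducible factors -/
noncomputable def facs (f : K[X]) : Multiset K[X] :=
  UniqueFactorizationMonoid.normalizedFactors f

theorem facs_prop {f g : K[X]} (hg : g ∈ facs f) : g.Monic ∧ Irreducible g ∧ g ∣ f := by
  classical
  unfold facs at hg
  have h1 := UniqueFactorizationMonoid.irreducible_of_normalized_factor g hg
  refine ⟨?_, h1, UniqueFactorizationMonoid.dvd_of_mem_normalizedFactors hg⟩
  have h2 := UniqueFactorizationMonoid.normalize_normalized_factor g hg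
  rw [← h2]
  exact Polynomial.monic_normalize h1.ne_zero

theorem facs_prod (f : K[X]) : C f.leadingCoeff * (facs f).prod = f := by
  classical
  unfold facs
  exact Polynomial.leadingCoeff_mul_prod_normalizedFactors f

theorem card_facs_le {f : K[X]} (hf : f ≠ 0) : Multiset.card (facs f) ≤ f.natDegree := by
  have h1 : f.natDegree = ((facs f).map natDegree).sum := by
    conv_lhs => rw [← facs_prod f]
    rw [natDegree_C_mul (leadingCoeff_ne_zero.2 hf), natDegree_multiset_prod]
    intro h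
    exact (facs_prop h).2.1.ne_zero rfl
  rw [h1]
  have h2 : ∀ x ∈ (facs f).map natDegree, 1 ≤ x := by
    intro x hx
    obtain ⟨g, hg, rfl⟩ := Multiset.mem_map.1 hx
    exact (facs_prop hg).2.1.natDegree_pos
  have h3 := Multiset.card_nsmul_le_sum h2
  simpa using h3

open Classical in
/-- **D.** one variable. -/
theorem stepD_of_sieve (K : Type) [Field K] [NumberField K] {dm : ℕ} (hs : SieveG K dm)
    (A Dg J0 : ℕ) : ∃ J : ℕ, J0 ≤ J ∧ StepD K J dm A Dg := by
  obtain ⟨J, Y, hJ, hY, hS⟩ := hs (A * dm) (max J0 (A * Dg))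
  refine ⟨J, (le_max_left _ _).trans hJ, ?_⟩
  intro ι κ _ _ F T hA hF1 hT1 hF hT hspan Z
  by_cases hbad : ∃ p : Pl K, Bad J p
  swap
  · obtain ⟨τ, hτ⟩ := Infinite.exists_notMem_finset Z
    exact ⟨τ, hτ, fun p hp => absurd ⟨p, hp⟩ hbad⟩
  have hF0 : ∀ i, F i ≠ 0 := by
    intro i h
    obtain ⟨p, hp⟩ := hbad
    obtain ⟨j, hj⟩ := (hF p hp i).2
    rw [h, coeff_zero, map_zero] at hj
    exact zero_ne_one hj
  have hAD : A * Dg < 2 ^ J := lt_of_le_of_lt ((le_max_right _ _).trans hJ) Nat.lt_two_pow_self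
  -- the irreducible factors
  set Q : Finset K[X] := Finset.univ.biUnion (fun i => (facs (F i)).toFinset) with hQdef
  have hQmem : ∀ f, f ∈ Q ↔ ∃ i, f ∈ facs (F i) := by
    intro f
    simp [hQdef]
  have hQ : ∀ f ∈ Q, f.Monic ∧ Irreducible f := by
    intro f hf
    obtain ⟨i, hi⟩ := (hQmem f).1 hf
    exact ⟨(facs_prop hi).1, (facs_prop hi).2.1⟩
  have hQd : ∀ f ∈ Q, 1 ≤ f.natDegree ∧ f.natDegree ≤ dm := by
    intro f hf
    obtain ⟨i, hi⟩ := (hQmem f).1 hf
    refine ⟨(facs_prop hi).2.1.natDegree_pos, ?_⟩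
    exact (natDegree_le_of_dvd (facs_prop hi).2.2 (hF0 i)).trans (hF1 i).1
  have hQc : Q.card ≤ A * dm := by
    calc Q.card ≤ ∑ i, (facs (F i)).toFinset.card := Finset.card_biUnion_le
      _ ≤ ∑ i : ι, dm := Finset.sum_le_sum (fun i _ => (Multiset.toFinset_card_le _).trans
          ((card_facs_le (hF0 i)).trans (hF1 i).1))
      _ = Fintype.card ι * dm := by simp
      _ ≤ A * dm := Nat.mul_le_mul_right _ (le_trans (Nat.le_add_right _ _) hA)
  obtain ⟨N, m2, hN, hm2, G, hG1, hG2, hG3⟩ := Pool.Agent.Helper29.TRI.exists_scaled Q hQ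
  -- Bezout relations
  have hbez : ∀ k, ∃ h : K[X] → K[X], ∑ f ∈ T k, h f * f = 1 := by
    intro k
    have h1 : (1 : K[X]) ∈ Ideal.span (T k : Set K[X]) := by
      rw [hspan k]
      exact Submodule.mem_top
    obtain ⟨h, -, hh⟩ := Submodule.mem_span_finset.1 h1
    exact ⟨h, by simpa using hh⟩
  choose h hh using hbez
  -- the finite set of exceptional places
  set S0 : Finset K := (Finset.univ.image (fun i => (F i).leadingCoeff)) ∪
    Finset.univ.biUnion (fun k => (T k).biUnion (fun f => (h k f).coeffs)) with hS0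
  set B : Finset (Pl K) := (Pool.Agent.Helper11.CB.finite_ne_one S0).toFinset with hB
  have hBmem : ∀ p : Pl K, p ∉ B → ∀ x ∈ S0, x ≠ 0 → vl p x = 1 := by
    intro p hp x hx hx0
    by_contra hc
    apply hp
    rw [hB, Set.Finite.mem_toFinset]
    exact ⟨x, hx, hx0, hc⟩
  set M' : ℕ := N * (2 * Y * m2 * ∏ p ∈ B, nm p) with hM'
  set M : ℕ := N * M' with hM
  have hprod : ∏ p ∈ B, nm p ≠ 0 := Finset.prod_ne_zero_iff.2 (fun p _ => by
    have := two_le_nm p
    omega)
  have hM'0 : M' ≠ 0 := by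
    rw [hM']
    exact mul_ne_zero hN (mul_ne_zero (mul_ne_zero (mul_ne_zero two_ne_zero hY) hm2) hprod)
  have hM0 : M ≠ 0 := mul_ne_zero hN hM'0
  have hMM' : ∀ p : Pl K, (M : 𝓞 K) ∈ p.asIdeal → (M' : 𝓞 K) ∈ p.asIdeal := by
    intro p hp
    rw [hM, Nat.cast_mul] at hp
    rcases p.isPrime.mem_or_mem hp with h1 | h1
    · rw [hM', Nat.cast_mul]
      exact p.asIdeal.mul_mem_right _ h1
    · exact h1
  have hMB : ∀ p : Pl K, (M : 𝓞 K) ∉ p.asIdeal → p ∉ B := by
    intro p hp hpB
    apply hp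
    have h1 : nm p ∣ M := by
      rw [hM, hM']
      exact Dvd.dvd.mul_left (Dvd.dvd.mul_left (Dvd.dvd.mul_left
        (Finset.dvd_prod_of_mem _ hpB) _) _) _
    have h2 : ((nm p : ℕ) : 𝓞 K) ∈ p.asIdeal := Ideal.absNorm_mem _
    exact p.asIdeal.mem_of_dvd (Nat.cast_dvd_cast h1) h2
  have hMN : ∀ p : Pl K, (M : 𝓞 K) ∉ p.asIdeal → (N : 𝓞 K) ∉ p.asIdeal := by
    intro p hp hpN
    apply hp
    rw [hM, Nat.cast_mul]
    exact p.asIdeal.mul_mem_right _ hpN
  -- the base point
  have hloc : ∀ p : Pl K, ∃ t : 𝓞 K, Bad J p → (∀ i, vl p ((F i).eval (t : K)) = 1) ∧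
      ∀ k, ∃ f ∈ T k, vl p (f.eval (t : K)) = 1 := by
    intro p
    by_cases hp : Bad J p
    swap
    · exact ⟨0, fun h => absurd h hp⟩
    choose f hf j hj using fun k => (hT p hp k).2
    obtain ⟨t, ht⟩ := Pool.Agent.Helper49.TRI.exists_nonroot p
      (fun x : ι ⊕ κ => Sum.elim F f x) (by
        rintro (i | k)
        · exact hF p hp i
        · exact ⟨(hT p hp k).1 (f k) (hf k), j k, hj k⟩) (by
        have h1 : ∑ x : ι ⊕ κ, (Sum.elim F f x).natDegree ≤ ∑ x : ι ⊕ κ, Dg := by
          apply Finset.sum_le_sum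
          rintro (i | k) _
          · exact (hF1 i).2
          · exact hT1 k (f k) (hf k)
        have h2 : ∑ x : ι ⊕ κ, Dg ≤ A * Dg := by
          simp only [Finset.sum_const, Finset.card_univ, Fintype.card_sum, smul_eq_mul]
          exact Nat.mul_le_mul_right _ hA
        exact lt_of_le_of_lt (h1.trans h2) (hAD.trans (lt_nm hp)))
    exact ⟨t, fun _ => ⟨fun i => ht (Sum.inl i), fun k => ⟨f k, hf k, ht (Sum.inr k)⟩⟩⟩
  choose t ht using hloc
  obtain ⟨τ1, hτZ, hτ1⟩ := Pool.Agent.Helper17.CB.exists_crt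
    (Pool.Agent.Helper11.CB.finite_ne_one {(M : K)}).toFinset t
    (Finset.univ.biUnion (fun i => (F i).roots.toFinset))
  have hτB : ∀ p : Pl K, (M : 𝓞 K) ∈ p.asIdeal → τ1 - t p ∈ p.asIdeal := by
    intro p hp
    apply hτ1
    rw [Set.Finite.mem_toFinset]
    refine ⟨(M : K), Finset.mem_singleton_self _, by exact_mod_cast hM0, ?_⟩
    rw [Ne, vl_natCast_eq, not_not]
    exact hp
  have hτr : ∀ f ∈ Q, f.eval (τ1 : K) ≠ 0 := by
    intro f hf h0
    obtain ⟨i, hi⟩ := (hQmem f).1 hf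
    apply hτZ
    rw [Finset.mem_biUnion]
    refine ⟨i, Finset.mem_univ _, ?_⟩
    rw [Multiset.mem_toFinset, mem_roots (hF0 i)]
    obtain ⟨g, hg⟩ := (facs_prop hi).2.2
    rw [IsRoot.def, hg, eval_mul, h0, zero_mul]
  -- the sieve
  set c : 𝓞 K := N * τ1 - 1 with hc
  have hNK : (N : K) ≠ 0 := by exact_mod_cast hN
  obtain ⟨k, r, u, v, hk, hr, hu, hv, hv0, huv, hsv⟩ := hS
    (Q.image (fun f => (G f).comp (X + C c))) (Finset.card_image_le.trans hQc) (by
      intro P hP
      obtain ⟨f, hf, rfl⟩ := Finset.mem_image.1 hP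
      obtain ⟨h1, h2, h3, h4⟩ := hG1 f hf
      obtain ⟨k1, k2, k3, k4, -, -⟩ := Pool.Agent.Helper32.CB.translate_props (G' := G f) h1 h4 c
        (dvd_refl m2) (hG2 f hf)
      refine ⟨k1, ?_, ?_, k3, ?_⟩
      · rw [k2, h2]
        exact (hQd f hf).1
      · rw [k2, h2]
        exact (hQd f hf).2
      · rw [k4]
        intro h0
        have h5 : ((G f).map (algebraMap (𝓞 K) K)).eval ((N : K) * τ1) = 0 := by
          have h6 : (1 : 𝓞 K) + c = N * τ1 := by rw [hc]; ring
          rw [h6] at h0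
          have h7 := congrArg (algebraMap (𝓞 K) K) h0
          rw [map_zero, ← eval₂_at_apply, ← eval_map] at h7
          simpa using h7
        rw [h3, scaleRoots_eval_mul] at h5
        exact mul_ne_zero (pow_ne_zero _ hNK) (hτr f hf) h5)
    M hM0 (by
      rw [hM, hM']
      exact Dvd.dvd.mul_left (Dvd.dvd.mul_left (Dvd.dvd.mul_right
        (Dvd.dvd.mul_right (dvd_refl _) _) _) _) _) (by
      intro P hP
      obtain ⟨f, hf, rfl⟩ := Finset.mem_image.1 hP
      obtain ⟨h1, h2, h3, h4⟩ := hG1 f hf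
      obtain ⟨-, -, -, -, k5, -⟩ := Pool.Agent.Helper32.CB.translate_props (G' := G f) h1 h4 c
        (m2 := m2) (m1 := M) (by
          rw [hM, hM']
          exact Dvd.dvd.mul_left (Dvd.dvd.mul_left (Dvd.dvd.mul_right
            (Dvd.dvd.mul_left (dvd_refl _) _) _) _) _) (hG2 f hf)
      exact k5) (by
      intro P hP P' hP' hne
      obtain ⟨f, hf, rfl⟩ := Finset.mem_image.1 hP
      obtain ⟨g, hg, rfl⟩ := Finset.mem_image.1 hP'
      obtain ⟨h1, h2, h3, h4⟩ := hG1 f hf
      obtain ⟨-, -, -, -, -, k6⟩ := Pool.Agent.Helper32.CB.translate_props (G' := G g) h1 h4 c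
        (m2 := m2) (m1 := M) (by
          rw [hM, hM']
          exact Dvd.dvd.mul_left (Dvd.dvd.mul_left (Dvd.dvd.mul_right
            (Dvd.dvd.mul_left (dvd_refl _) _) _) _) _) (hG2 f hf)
      exact k6 (hG3 f hf g hg (fun h => hne (by rw [h])))) (Z.image (fun z => N * z - (c : K)))
  have hvK : (v : K) ≠ 0 := by exact_mod_cast hv0
  set τ0 : K := ((u : K) + c * v) / (N * v) with hτ0
  have hτ0' : τ0 = τ1 + ((u : K) - v) / (N * v) := by
    rw [hτ0, hc]
    push_cast
    field_simp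
    ring
  refine ⟨τ0, ?_, ?_⟩
  · intro hz
    apply huv
    rw [Finset.mem_image]
    refine ⟨τ0, hz, ?_⟩
    rw [hτ0]
    field_simp
    ring
  intro p hp
  by_cases hpM : (M : 𝓞 K) ∈ p.asIdeal
  · -- places which divide the modulus
    have hvp : v ∉ p.asIdeal := by
      intro h1
      have h2 : (r : 𝓞 K) ∈ p.asIdeal := by
        have h3 : v - (r : 𝓞 K) ∈ p.asIdeal := by
          refine p.asIdeal.mem_of_dvd hv ?_
          rw [Nat.cast_pow]
          exact Ideal.pow_mem_of_mem _ hpM k (by omega)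
        have := p.asIdeal.sub_mem h1 h3
        rwa [sub_sub_cancel] at this
      have h3 : IsCoprime ((r : ℕ) : 𝓞 K) ((M : ℕ) : 𝓞 K) := by
        have : IsCoprime (r : ℤ) (M : ℤ) := Nat.isCoprime_iff_coprime.2 hr
        have := this.map (Int.castRingHom (𝓞 K))
        simpa using this
      obtain ⟨a, b, hab⟩ := h3
      apply p.isPrime.ne_top
      rw [Ideal.eq_top_iff_one, ← hab]
      exact p.asIdeal.add_mem (p.asIdeal.mul_mem_left _ h2) (p.asIdeal.mul_mem_left _ hpM)
    have hvv : vl p (v : K) = 1 := (vl_eq_one_iff p v).2 hvp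
    have hdiff : vl p (((u : K) - v) / (N * v)) < 1 := by
      obtain ⟨k', rfl⟩ : ∃ k', k = k' + 1 := ⟨k - 1, by omega⟩
      have h1 : ((M ^ (k' + 1) : ℕ) : 𝓞 K) ∣ u - v := by
        have := dvd_sub hu hv
        rwa [sub_sub_sub_cancel_right] at this
      obtain ⟨w, hw⟩ := h1
      have h2 : ((u : K) - v) / (N * v) = (M' : K) * ((M ^ k' * w : 𝓞 K) : K) / v := by
        have h3 : (u : K) - v = ((u - v : 𝓞 K) : K) := by push_cast; ring
        rw [h3, hw, hM]
        push_cast
        field_simp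
        ring
      rw [h2, map_div₀, hvv, div_one, map_mul]
      have h4 : vl p (M' : K) < 1 := (vl_natCast_lt p M').2 (hMM' p hpM)
      exact mul_lt_one_of_lt_of_le h4 (vl_le_one p _)
    have hsub : vl p (τ0 - (t p : 𝓞 K)) < 1 := by
      have h1 : τ0 - (t p : K) = ((u : K) - v) / (N * v) + ((τ1 - t p : 𝓞 K) : K) := by
        rw [hτ0']
        push_cast
        ring
      rw [h1]
      exact Valuation.map_add_lt _ hdiff ((vl_lt_one_iff p _).2 (hτB p hpM))
    have htp : vl p (t p : K) ≤ 1 := vl_le_one p _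
    have hτp : vl p τ0 ≤ 1 := by
      have h1 : τ0 = (τ0 - (t p : K)) + (t p : K) := by ring
      rw [h1]
      exact Valuation.map_add_le _ hsub.le htp
    refine ⟨hτp, ?_, ?_⟩
    · intro i
      exact vl_eq_of_sub_lt p ((ht p hp).1 i)
        (Pool.Agent.Helper11.CB.eval_sub_lt p (hF p hp i).1 hτp htp hsub)
    · intro k
      obtain ⟨f, hf, hf1⟩ := (ht p hp).2 k
      exact ⟨f, hf, vl_eq_of_sub_lt p hf1
        (Pool.Agent.Helper11.CB.eval_sub_lt p ((hT p hp k).1 f hf) hτp htp hsub)⟩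
  · -- the other places
    obtain ⟨hvp, hhv⟩ := hsv p hp hpM
    have hvv : vl p (v : K) = 1 := (vl_eq_one_iff p v).2 hvp
    have hNv : vl p (N : K) = 1 := (vl_natCast_eq p N).2 (hMN p hpM)
    have hpB := hMB p hpM
    have hτp : vl p τ0 ≤ 1 := by
      rw [hτ0, map_div₀, map_mul, hvv, hNv, mul_one, div_one]
      have h1 : (u : K) + c * v = ((u + c * v : 𝓞 K) : K) := by push_cast; ring
      rw [h1]
      exact vl_le_one p _
    refine ⟨hτp, ?_, ?_⟩
    · intro i
      have h1 : ∀ f ∈ facs (F i), vl p (f.eval τ0) = 1 := by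
        intro f hf
        have hfQ : f ∈ Q := (hQmem f).2 ⟨i, hf⟩
        obtain ⟨k1, k2, k3, k4⟩ := hG1 f hfQ
        have h2 := hhv _ (Finset.mem_image_of_mem _ hfQ)
        have h3 := (vl_eq_one_iff p _).2 h2
        rw [Pool.Agent.Helper32.CB.hv_translate hN k1 k3 c u v hv0, map_mul, map_pow, map_mul,
          hvv, hNv, mul_one, one_pow, one_mul] at h3
        exact h3
      have h2 : vl p ((facs (F i)).prod.eval τ0) = 1 := by
        rw [eval_multiset_prod, map_multiset_prod]
        apply Multiset.prod_eq_one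
        intro x hx
        simp only [Multiset.map_map, Multiset.mem_map, Function.comp] at hx
        obtain ⟨f, hf, rfl⟩ := hx
        exact h1 f hf
      have h3 : vl p (F i).leadingCoeff = 1 := by
        apply hBmem p hpB _ _ (leadingCoeff_ne_zero.2 (hF0 i))
        rw [hS0, Finset.mem_union]
        exact Or.inl (Finset.mem_image_of_mem _ (Finset.mem_univ i))
      rw [← facs_prod (F i), eval_mul, eval_C, map_mul, h2, h3, mul_one]
    · intro k
      by_contra hcon
      push Not at hcon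
      have h1 : vl p ((∑ f ∈ T k, h k f * f).eval τ0) < 1 := by
        rw [eval_finsetSum]
        apply Valuation.map_sum_lt _ one_ne_zero
        intro f hf
        rw [eval_mul, map_mul]
        have h2 : vl p ((h k f).eval τ0) ≤ 1 := by
          apply vl_eval_le p _ hτp
          intro j
          by_cases hj : (h k f).coeff j = 0
          · rw [hj, map_zero]
            exact zero_le_one
          · refine (hBmem p hpB _ ?_ hj).le
            rw [hS0, Finset.mem_union]
            right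
            rw [Finset.mem_biUnion]
            refine ⟨k, Finset.mem_univ _, ?_⟩
            rw [Finset.mem_biUnion]
            refine ⟨f, hf, ?_⟩
            exact coeff_mem_coeffs hj
        have h3 : vl p (f.eval τ0) < 1 :=
          lt_of_le_of_ne (vl_eval_le p ((hT p hp k).1 f hf) hτp) (hcon f hf)
        calc vl p ((h k f).eval τ0) * vl p (f.eval τ0) ≤ 1 * vl p (f.eval τ0) :=
              mul_le_mul_left h2 _
          _ < 1 := by rwa [one_mul]
      rw [hh k, eval_one, map_one] at h1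
      exact lt_irrefl _ h1

end Pool.Agent.Helper10.TRI
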