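import Pool.Agent.Helper4.CB.STM

/-!
# CB, triangular form (T-TRI): definitions
-/

set_option autoImplicit false

namespace Pool.Agent.Helper10.TRI

open NumberField Polynomial Pool.Agent.Helper4.CB

/-- the sieve statement around the point `1` for one `J`: `u = v = r` modulo a power of `m1`, the
places `p` with `N p = 1` modulo `2 ^ J` which do not divide `m1` divide neither `v` nor the values
`P(u, v)`; all discriminants and resultants of the polynomials divide `m1` -/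
def SieveAt (K : Type) [Field K] [NumberField K] (dm D J Y : ℕ) : Prop :=
  ∀ S : Finset (𝓞 K)[X], S.card ≤ D →
    (∀ P ∈ S, P.Monic ∧ 1 ≤ P.natDegree ∧ P.natDegree ≤ dm ∧
      Irreducible (P.map (algebraMap (𝓞 K) K)) ∧ P.eval 1 ≠ 0) →
    ∀ m1 : ℕ, m1 ≠ 0 → 2 * Y ∣ m1 →
    (∀ P ∈ S, ∃ A B : (𝓞 K)[X], A * P + B * derivative P = C (m1 : 𝓞 K)) →
    (∀ P ∈ S, ∀ P' ∈ S, P ≠ P' → ∃ A B : (𝓞 K)[X], A * P + B * P' = C (m1 : 𝓞 K)) →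
    ∀ Z : Finset K, ∃ (k r : ℕ) (u v : 𝓞 K), 1 ≤ k ∧
      r.Coprime m1 ∧ ((m1 ^ k : ℕ) : 𝓞 K) ∣ u - (r : 𝓞 K) ∧
      ((m1 ^ k : ℕ) : 𝓞 K) ∣ v - (r : 𝓞 K) ∧ v ≠ 0 ∧ (u : K) / v ∉ Z ∧
      ∀ p : Pl K, nm p ≡ 1 [MOD 2 ^ J] → (m1 : 𝓞 K) ∉ p.asIdeal →
        v ∉ p.asIdeal ∧ ∀ P ∈ S, hv P u v ∉ p.asIdeal

/-- **SieveG** -/
def SieveG (K : Type) [Field K] [NumberField K] (dm : ℕ) : Prop :=
  ∀ D J0 : ℕ, ∃ J Y : ℕ, J0 ≤ J ∧ Y ≠ 0 ∧ SieveAt K dm D J Y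

end Pool.Agent.Helper10.TRI
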