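import Pool.Agent.Helper10.TRI.StepD
import Pool.Agent.Helper56.CB.TriF
import Pool.Agent.Helper4.CB.FinalTri
import Pool.Agent.Helper35.CB.SieveGTwo

/-!
# T-TRI for degree at most two
-/

set_option autoImplicit false

namespace Pool.Agent.Helper10.TRI

open NumberField MvPolynomial Pool.Agent.Helper65.CB Pool.Agent.Helper69.CB
open AlgebraicGeometry CategoryTheory Pool.Agent.Helper15

theorem harmless_of_sieve (dm : ℕ) (hs : ∀ (M : Type) [Field M] [NumberField M], SieveG M dm)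
    {n r : ℕ} (M : Type) [Field M] [NumberField M] (a b : Fin r → MvPolynomial (Fin n) M)
    (ha : ∀ i, a i ≠ 0) (hb : ∀ i, b i ≠ 0)
    (hP : ∀ i, ∀ P : MvPolynomial (Fin n) M, Irreducible P → P ∣ a i * b i →
        TriDeg dm P ∨ LCU P (a i) (b i)) :
    ∃ J, ∀ f : MvPolynomial (Fin n) M, f ≠ 0 →
        ∃ φ : MvPolynomial (Fin n) M →ₐ[M] M, φ f ≠ 0 ∧ ∀ i, HS M J (φ (a i)) (φ (b i)) :=
  Pool.Agent.Helper56.CB.tri_harmless_of M dm (fun A Dg J0 => stepD_of_sieve M (hs M) A Dg J0)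
    a b ha hb hP

theorem final_two (K : Type) [Field K] [NumberField K] (n r : ℕ)
    (a b : Fin r → MvPolynomial (Fin n) K) (ha : ∀ i, a i ≠ 0) (hb : ∀ i, b i ≠ 0)
    (h : ∀ i, ∀ P : MvPolynomial (Fin n) (AlgebraicClosure K), Irreducible P →
      P ∣ map (algebraMap K (AlgebraicClosure K)) (a i * b i) →
      (∀ j : Fin n, (∀ k < j, P.degreeOf k = 0) → P.degreeOf j ≤ 2) ∨
      LCU P (map (algebraMap K (AlgebraicClosure K)) (a i))
        (map (algebraMap K (AlgebraicClosure K)) (b i)))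
    (X : Scheme.{0}) (s : X ⟶ Spec (CommRingCat.of K))
    (hX : DominatedOver K X (Spec (CommRingCat.of (MvPolynomial (Fin r × Fin 2)
      (MvPolynomial (Fin n) K) ⧸ Ideal.span
      (Set.range fun i : Fin r => (MvPolynomial.X (i, 0) ^ 2 -
        MvPolynomial.C (a i) * MvPolynomial.X (i, 1) ^ 2 - MvPolynomial.C (b i) :
        MvPolynomial (Fin r × Fin 2) (MvPolynomial (Fin n) K)))))) s
      (Spec.map (CommRingCat.ofHom (algebraMap K (MvPolynomial (Fin r × Fin 2)
        (MvPolynomial (Fin n) K) ⧸ Ideal.span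
      (Set.range fun i : Fin r => (MvPolynomial.X (i, 0) ^ 2 -
        MvPolynomial.C (a i) * MvPolynomial.X (i, 1) ^ 2 - MvPolynomial.C (b i) :
        MvPolynomial (Fin r × Fin 2) (MvPolynomial (Fin n) K)))))))) :
    PotentiallyDense K X s :=
  Pool.Agent.Helper4.CB.final_tri K 2 n r (fun M _ _ a b ha hb hP =>
    harmless_of_sieve 2 (fun M _ _ => Pool.Agent.Helper35.CB.sieveG_two M) M a b ha hb hP)
    a b ha hb h X s hX

end Pool.Agent.Helper10.TRI
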